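import Pool.Agent.Helper30.ProjDyn3

open Filter Topology Set

namespace Pool.Agent.Helper30.ProjDyn

variable {V : Type*} [NormedAddCommGroup V] [NormedSpace ℂ V] [FiniteDimensional ℂ V]
variable {C : Set V} {G : Subgroup (V ≃L[ℂ] V)}

omit [FiniteDimensional ℂ V] in
lemma linInd_smul_left {p w : V} {c : ℂ} (hc : c ≠ 0) (h : LinearIndependent ℂ ![p, w]) :
    LinearIndependent ℂ ![c • p, w] := by
  rw [LinearIndependent.pair_iff] at h ⊢
  intro s t hst
  rw [smul_smul] at hst
  obtain ⟨h1, h2⟩ := h _ _ hst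
  exact ⟨(mul_eq_zero.1 h1).resolve_right hc, h2⟩

omit [FiniteDimensional ℂ V] in
lemma linInd_map {A : V →L[ℂ] V} (hA : Function.Injective A) {p w : V}
    (h : LinearIndependent ℂ ![p, w]) : LinearIndependent ℂ ![A p, A w] := by
  rw [LinearIndependent.pair_iff] at h ⊢
  intro s t hst
  apply h
  apply hA
  rw [map_add, map_smul, map_smul, hst, map_zero]

lemma exists_indep (hdim : 3 ≤ Module.finrank ℂ V) (f : V →L[ℂ] ℂ) {x : V} (hx : x ≠ 0) :
    ∃ w, f w = 0 ∧ LinearIndependent ℂ ![x, w] := by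
  by_contra hcon
  push Not at hcon
  have h1 : LinearMap.ker (f : V →ₗ[ℂ] ℂ) ≤ Submodule.span ℂ {x} := by
    intro w hw
    by_contra hw'
    apply hcon w hw
    rw [LinearIndependent.pair_iff' hx]
    intro a ha
    exact hw' (Submodule.mem_span_singleton.2 ⟨a, ha⟩)
  have h2 := Submodule.finrank_mono h1
  rw [finrank_span_singleton hx] at h2
  have h3 := LinearMap.finrank_range_add_finrank_ker (f : V →ₗ[ℂ] ℂ)
  have h4 : Module.finrank ℂ (LinearMap.range (f : V →ₗ[ℂ] ℂ)) ≤ 1 := by
    have := Submodule.finrank_le (LinearMap.range (f : V →ₗ[ℂ] ℂ))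
    rwa [Module.finrank_self] at this
  omega

omit [FiniteDimensional ℂ V] in
/-- functionals with nested kernels are proportional -/
lemma functional_prop {f f' : V →L[ℂ] ℂ} (hf : f ≠ 0) (hf' : f' ≠ 0)
    (h : ∀ x, f' x = 0 → f x = 0) : ∃ c : ℂ, c ≠ 0 ∧ ∀ x, f x = c * f' x := by
  obtain ⟨x1, hx1⟩ : ∃ x, f' x ≠ 0 := by
    by_contra h
    push Not at h
    exact hf' (ContinuousLinearMap.ext h)
  have h1 : ∀ x, f x = (f x1 / f' x1) * f' x := by
    intro x
    have h2 : f' (x - (f' x / f' x1) • x1) = 0 := by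
      rw [map_sub, map_smul, smul_eq_mul, div_mul_cancel₀ _ hx1, sub_self]
    have h3 := h _ h2
    rw [map_sub, map_smul, smul_eq_mul, sub_eq_zero] at h3
    rw [h3]; ring
  refine ⟨f x1 / f' x1, ?_, h1⟩
  intro h0
  apply hf
  ext x
  rw [h1 x, h0, zero_mul]; rfl

theorem dichotomy (H : Cocompact C G) (hdim : 3 ≤ Module.finrank ℂ V) :
    (∀ p ∈ C, p ≠ 0 → HasLine C p) ∨
      ∃ (f : V →L[ℂ] ℂ) (e : V), f e ≠ 0 ∧ ∀ x, x ∈ C ↔ (f x = 0 ∨ ∃ c : ℂ, x = c • e) := by
  by_contra hcon
  push Not at hcon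
  obtain ⟨⟨p, hpC, hp, hpl⟩, hcon⟩ := hcon
  -- the alternative for a point through which there is no line
  have halt : ∀ q ∈ C, q ≠ 0 → ¬ HasLine C q → ∃ (A : ℕ → V ≃L[ℂ] V) (d : ℕ → ℂ) (f : V →L[ℂ] ℂ),
      (∀ n, A n ∈ G) ∧ f ≠ 0 ∧ (∀ x, f x = 0 → x ∈ C) ∧
      Tendsto (fun n => d n • (A n : V →L[ℂ] V)) atTop (𝓝 (f.smulRight q)) := by
    intro q hqC hq hql
    obtain ⟨A, k, k0, c, hAG, hAne, hk, hk0, hlim⟩ := H.cc q hqC hq
    rcases main_alternative H.closed H.zero_mem H.smul_mem H.int
      (B := fun n => (A n : V →L[ℂ] V)) (fun n => (A n).injective) (H.pd A hAG hAne) hk hk0 hq hlim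
      with h | ⟨φ, d, f, hφ, hf, hker, hT⟩
    · exact absurd h hql
    · exact ⟨fun n => A (φ n), d, f, fun n => hAG _, hf, hker, hT⟩
  obtain ⟨B, d, f, hBG, hf, hker, hT⟩ := halt p hpC hp hpl
  have hBx : ∀ x, Tendsto (fun n => d n • B n x) atTop (𝓝 (f x • p)) := by
    intro x
    have h1 := ((ContinuousLinearMap.apply ℂ V x).continuous.tendsto _).comp hT
    simpa [Function.comp_def] using h1
  have hfp : f p ≠ 0 := by
    intro h0
    obtain ⟨w, hw, hli⟩ := exists_indep hdim f hp
    apply hpl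
    refine ⟨w, hli, fun a b => hker _ ?_⟩
    rw [map_add, map_smul, map_smul, h0, hw, smul_zero, smul_zero, add_zero]
  have hline : ∀ x w, LinearIndependent ℂ ![x, w] → (∀ a b : ℂ, a • x + b • w ∈ C) → f x = 0 := by
    intro x w hli hxw
    by_contra hfx
    have h1 : f x • p ≠ 0 := smul_ne_zero hfx hp
    obtain ⟨w0, hw0, hw0C, -⟩ := line_limit H.closed (p := fun n => d n • B n x)
      (w := fun n => d n • B n w) h1 (hBx x) (by
        filter_upwards [(hBx x).eventually_ne h1] with n hn
        have hdn : d n ≠ 0 := fun h => hn (by rw [h, zero_smul])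
        constructor
        · have h2 : Function.Injective (d n • (B n : V →L[ℂ] V)) := by
            intro a b hab
            exact (B n).injective (smul_right_injective V hdn hab)
          exact linInd_map h2 hli
        · intro a b
          have h3 : a • d n • B n x + b • d n • B n w = d n • B n (a • x + b • w) := by
            rw [map_add, map_smul, map_smul]
            module
          rw [h3]
          exact H.smul_mem _ _ (H.inv _ (hBG n) _ (hxw a b)))
    apply hpl
    refine ⟨w0, ?_, fun a b => ?_⟩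
    · have := linInd_smul_left (inv_ne_zero hfx) hw0
      rwa [smul_smul, inv_mul_cancel₀ hfx, one_smul] at this
    · have := hw0C (a * (f x)⁻¹) b
      rwa [smul_smul, mul_assoc, inv_mul_cancel₀ hfx, mul_one] at this
  have huniq : ∀ f' : V →L[ℂ] ℂ, f' ≠ 0 → (∀ x, f' x = 0 → x ∈ C) →
      ∃ c : ℂ, c ≠ 0 ∧ ∀ x, f x = c * f' x := by
    intro f' hf' hker'
    apply functional_prop hf hf'
    intro x hx
    by_cases hx0 : x = 0
    · rw [hx0, map_zero]
    obtain ⟨w, hw, hli⟩ := exists_indep hdim f' hx0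
    apply hline x w hli
    intro a b
    apply hker'
    rw [map_add, map_smul, map_smul, hx, hw, smul_zero, smul_zero, add_zero]
  have hfG : ∀ A ∈ G, ∃ c : ℂ, c ≠ 0 ∧ ∀ x, f (A x) = c * f x := by
    intro A hA
    have h1 : f.comp (A : V →L[ℂ] V) ≠ 0 := by
      intro h0
      apply hf
      ext x
      have := congrArg (fun F : V →L[ℂ] ℂ => F (A⁻¹ x)) h0
      simp only [ContinuousLinearMap.comp_apply, ContinuousLinearEquiv.coe_coe] at this
      rw [← mulA, mul_inv_cancel, oneA] at this
      rw [this]; rfl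
    obtain ⟨c, hc, h2⟩ := huniq _ h1 (by
      intro x hx
      have h3 := H.inv A⁻¹ (G.inv_mem hA) _ (hker (A x) hx)
      rwa [← mulA, inv_mul_cancel, oneA] at h3)
    refine ⟨c⁻¹, inv_ne_zero hc, fun x => ?_⟩
    rw [h2 x]
    simp only [ContinuousLinearMap.comp_apply, ContinuousLinearEquiv.coe_coe]
    rw [← mul_assoc, inv_mul_cancel₀ hc, one_mul]
  -- normalisation of the sequence
  choose a ha haf using fun n => hfG (B n) (hBG n)
  have hda : Tendsto (fun n => d n * a n) atTop (𝓝 (f p)) := by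
    have h1 := (f.continuous.tendsto _).comp (hBx p)
    have h2 : Tendsto (fun n => (d n * a n) * f p) atTop (𝓝 (f p * f p)) := by
      rw [map_smul, smul_eq_mul] at h1
      refine h1.congr fun n => ?_
      simp only [Function.comp_apply, map_smul, smul_eq_mul, haf]
      ring
    have h3 := h2.mul_const (f p)⁻¹
    rw [mul_assoc, mul_inv_cancel₀ hfp, mul_one] at h3
    refine h3.congr fun n => ?_
    rw [mul_assoc, mul_inv_cancel₀ hfp, mul_one]
  have hgT : Tendsto (fun n => (a n)⁻¹ • (B n : V →L[ℂ] V)) atTop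
      (𝓝 ((f p)⁻¹ • f.smulRight p)) := by
    have h1 := (hda.inv₀ hfp).smul hT
    refine h1.congr' ?_
    filter_upwards [hda.eventually_ne hfp] with n hn
    have hdn : d n ≠ 0 := left_ne_zero_of_mul hn
    rw [smul_smul]
    congr 1
    field_simp
  obtain ⟨n, hn⟩ : ∃ n, ‖(a n)⁻¹ • (B n : V →L[ℂ] V) - (f p)⁻¹ • f.smulRight p‖ < 1 / 2 := by
    have h1 := (tendsto_iff_norm_sub_tendsto_zero.1 hgT).eventually_lt_const
      (show (0 : ℝ) < 1 / 2 by norm_num)
    exact h1.exists
  obtain ⟨g, hgG, hgx⟩ := H.scale (B n) (hBG n) (a n)⁻¹ (inv_ne_zero (ha n))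
  have hg : ∀ x, f (g x) = f x := by
    intro x
    rw [hgx, map_smul, smul_eq_mul, haf, ← mul_assoc, inv_mul_cancel₀ (ha n), one_mul]
  have hgn : ∀ x, f x = 0 → ‖g x‖ ≤ (1 / 2) * ‖x‖ := by
    intro x hx
    have h1 : g x = ((a n)⁻¹ • (B n : V →L[ℂ] V) - (f p)⁻¹ • f.smulRight p) x := by
      rw [hgx]
      simp [hx]
    rw [h1]
    exact (ContinuousLinearMap.le_opNorm _ x).trans
      (mul_le_mul_of_nonneg_right hn.le (norm_nonneg x))
  -- the fixed point
  obtain ⟨e, hge, hfe⟩ : ∃ e, g e = e ∧ f e ≠ 0 := by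
    set K := LinearMap.ker (f : V →ₗ[ℂ] ℂ) with hK
    set Q : V →ₗ[ℂ] V := LinearMap.id - (g : V →L[ℂ] V).toLinearMap with hQ
    have hS : ∀ x : V, x ∈ K → Q x ∈ K := by
      intro x hx
      rw [LinearMap.mem_ker] at hx ⊢
      change f x = 0 at hx
      change f (x - g x) = 0
      rw [map_sub, hg, sub_self]
    set S := Q.restrict hS with hSdef
    have hSinj : Function.Injective S := by
      rw [← LinearMap.ker_eq_bot, LinearMap.ker_eq_bot']
      rintro ⟨x, hx⟩ h0
      have h1 : x - g x = 0 := congrArg Subtype.val h0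
      have h2 := hgn x hx
      rw [← sub_eq_zero.1 h1] at h2
      have h3 : ‖x‖ = 0 := by
        have := norm_nonneg x
        linarith
      have h4 : x = 0 := norm_eq_zero.1 h3
      subst h4
      rfl
    have hSsurj : Function.Surjective S := LinearMap.surjective_of_injective hSinj
    obtain ⟨⟨x, hx⟩, hx'⟩ := hSsurj ⟨g p - p, by
      rw [LinearMap.mem_ker]
      change f (g p - p) = 0
      rw [map_sub, hg, sub_self]⟩
    have h1 : x - g x = g p - p := congrArg Subtype.val hx'
    refine ⟨p + x, ?_, ?_⟩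
    · rw [map_add]
      have : g x = x - (g p - p) := by rw [← h1]; abel
      rw [this]; abel
    · have h2 : f x = 0 := hx
      rw [map_add, h2, add_zero]
      exact hfp
  have hfix : ∀ h ∈ G, (∀ x, f (h x) = f x) → h e = e := fun h hh hfh =>
    fixes_all H hker hline hgG hh hg hfh hgn hge hfe
  -- conclusion
  obtain ⟨x, hx⟩ := hcon f e hfe
  apply hx.elim
  · rintro ⟨hxC, hfx, hxe⟩
    have hx0 : x ≠ 0 := fun h => hfx (by rw [h, map_zero])
    have hxl : ¬ HasLine C x := fun ⟨w, hli, hw⟩ => hfx (hline x w hli hw)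
    obtain ⟨A, d', f', hAG, hf', hker', hT'⟩ := halt x hxC hx0 hxl
    obtain ⟨c, hc, hcf⟩ := huniq f' hf' hker'
    have hf'e : f' e ≠ 0 := by
      intro h0
      apply hfe
      rw [hcf, h0, mul_zero]
    have h1 : Tendsto (fun n => d' n • A n e) atTop (𝓝 (f' e • x)) := by
      have h1 := ((ContinuousLinearMap.apply ℂ V e).continuous.tendsto _).comp hT'
      simpa [Function.comp_def] using h1
    have h2 : ∀ n, d' n • A n e ∈ Submodule.span ℂ {e} := by
      intro n
      obtain ⟨c', hc', hc'f⟩ := hfG (A n) (hAG n)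
      obtain ⟨A', hA'G, hA'x⟩ := H.scale (A n) (hAG n) c'⁻¹ (inv_ne_zero hc')
      have h3 : A' e = e := hfix A' hA'G (fun y => by
        rw [hA'x, map_smul, smul_eq_mul, hc'f, ← mul_assoc, inv_mul_cancel₀ hc', one_mul])
      rw [hA'x] at h3
      have h4 : A n e = c' • e := by
        rw [← h3, smul_smul, mul_inv_cancel₀ hc', one_smul]
        rw [h3]
      rw [h4, smul_smul]
      exact Submodule.mem_span_singleton.2 ⟨_, rfl⟩
    have h3 : f' e • x ∈ Submodule.span ℂ {e} := by
      have hcl : IsClosed ((Submodule.span ℂ {e} : Submodule ℂ V) : Set V) :=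
        Submodule.closed_of_finiteDimensional _
      exact hcl.mem_of_tendsto h1 (Eventually.of_forall h2)
    obtain ⟨c1, hc1⟩ := Submodule.mem_span_singleton.1 h3
    apply hxe ((f' e)⁻¹ * c1)
    rw [mul_smul, hc1, smul_smul, inv_mul_cancel₀ hf'e, one_smul]
  · rintro ⟨hxC, h⟩
    apply hxC
    rcases h with h | ⟨c, rfl⟩
    · exact hker x h
    · apply H.smul_mem
      -- `e` is a limit of `g ^ m y`
      by_contra heC
      have hdiv := H.pd (fun m => g ^ m) (fun m => G.pow_mem hgG m) (by
        rintro m n hmn ⟨c', hc'⟩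
        have h1 := hc' e
        rw [pow_fix hge, pow_fix hge] at h1
        have hc1 : c' = 1 := by
          have h2 := congrArg f h1
          rw [map_smul, smul_eq_mul] at h2
          have h3 : (c' - 1) * f e = 0 := by linear_combination -h2
          exact sub_eq_zero.1 ((mul_eq_zero.1 h3).resolve_right hfe)
        obtain ⟨w, hw, hli⟩ := exists_indep hdim f hp
        have hwne : w ≠ 0 := by
          have := hli.ne_zero 1
          simpa using this
        have h2 := hc' w
        rw [hc1, one_smul] at h2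
        set b := (g ^ m) w with hb
        have hfb : f b = 0 := by rw [hb, pow_apply_f hg, hw]
        have hbne : b ≠ 0 := by
          intro h0
          apply hwne
          apply (g ^ m).injective
          rw [map_zero]; exact h0
        have h4 : (g ^ (n - m)) b = b := by
          have h8 : (g ^ (n - m)) b = (g ^ n) w := by
            rw [hb, ← mulA, ← pow_add, Nat.sub_add_cancel hmn.le]
          rw [h8]; exact h2
        have h5 := pow_apply_norm hg hgn (n - m) b hfb
        rw [h4] at h5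
        have h6 : (1 / 2 : ℝ) ^ (n - m) ≤ 1 / 2 := by
          calc (1 / 2 : ℝ) ^ (n - m) ≤ (1 / 2) ^ 1 :=
                pow_le_pow_of_le_one (by norm_num) (by norm_num) (by omega)
            _ = 1 / 2 := pow_one _
        have h7 : 0 < ‖b‖ := norm_pos_iff.2 hbne
        nlinarith)
      apply heC
      refine hdiv id strictMono_id (fun _ => e) e e tendsto_const_nhds heC (fun _ => 1) ?_
      refine tendsto_const_nhds.congr fun m => ?_
      rw [one_smul]
      exact (pow_fix hge m).symm

end Pool.Agent.Helper30.ProjDyn
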