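import Mathlib

open Filter Topology Set

namespace Pool.Agent.Helper30.ProjDyn

variable {V : Type*} [NormedAddCommGroup V] [NormedSpace ℂ V]

/-- limits of `c n • B n (x n)` along subsequences, `x n` tending to a point off `C`, lie in `C` -/
def Diverges (C : Set V) (B : ℕ → V →L[ℂ] V) : Prop :=
  ∀ (φ : ℕ → ℕ), StrictMono φ → ∀ (x : ℕ → V) (a y : V), Tendsto x atTop (𝓝 a) → a ∉ C →
    ∀ c : ℕ → ℂ, Tendsto (fun n => c n • B (φ n) (x n)) atTop (𝓝 y) → y ∈ C

/-- a complex plane through `p` is contained in `C` -/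
def HasLine (C : Set V) (p : V) : Prop :=
  ∃ w, LinearIndependent ℂ ![p, w] ∧ ∀ a b : ℂ, a • p + b • w ∈ C

lemma linInd_of_functional {g : V →L[ℂ] ℂ} {p y : V} (h1 : g p ≠ 0) (h2 : g y = 0) (h3 : y ≠ 0) :
    LinearIndependent ℂ ![p, y] := by
  rw [LinearIndependent.pair_iff]
  intro s t h
  have h4 : g (s • p + t • y) = 0 := by rw [h]; simp
  rw [map_add, map_smul, map_smul, h2, smul_zero, add_zero, smul_eq_mul, mul_eq_zero] at h4
  have h4 := h4.resolve_right h1
  subst h4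
  simp only [zero_smul, zero_add, smul_eq_zero, h3, or_false] at h
  exact ⟨rfl, h⟩

lemma Diverges.comp {C : Set V} {B : ℕ → V →L[ℂ] V} (h : Diverges C B) {φ : ℕ → ℕ}
    (hφ : StrictMono φ) : Diverges C (fun n => B (φ n)) :=
  fun ψ hψ x a y hx ha c hc => h (φ ∘ ψ) (hφ.comp hψ) x a y hx ha c hc

lemma Diverges.smul {C : Set V} {B : ℕ → V →L[ℂ] V} (h : Diverges C B) (d : ℕ → ℂ) :
    Diverges C (fun n => d n • B n) := by
  intro ψ hψ x a y hx ha c hc
  refine h ψ hψ x a y hx ha (fun n => c n * d (ψ n)) ?_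
  simpa [mul_smul] using hc

/-- if `e n • u n → p ≠ 0` and `u n → 0` then `(e n)⁻¹ → 0` -/
lemma inv_tendsto_zero {e : ℕ → ℂ} {u : ℕ → V} {p : V} (hp : p ≠ 0)
    (h1 : Tendsto (fun n => e n • u n) atTop (𝓝 p)) (h2 : Tendsto u atTop (𝓝 0)) :
    Tendsto (fun n => (e n)⁻¹) atTop (𝓝 0) := by
  obtain ⟨g, hg⟩ := SeparatingDual.exists_eq_one (R := ℂ) hp
  have h3 : Tendsto (fun n => g (e n • u n)) atTop (𝓝 1) := by
    rw [← hg]; exact (g.continuous.tendsto p).comp h1
  have h4 : Tendsto (fun n => g (u n)) atTop (𝓝 0) := by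
    have := (g.continuous.tendsto 0).comp h2
    simpa [Function.comp_def] using this
  have h5 : Tendsto (fun n => g (u n) / g (e n • u n)) atTop (𝓝 (0 / 1)) := h4.div h3 one_ne_zero
  rw [zero_div] at h5
  refine h5.congr' ?_
  have h6 : ∀ᶠ n in atTop, g (e n • u n) ≠ 0 := h3.eventually_ne one_ne_zero
  filter_upwards [h6] with n hn
  rw [map_smul, smul_eq_mul] at hn ⊢
  have ha : e n ≠ 0 := left_ne_zero_of_mul hn
  have hb : g (u n) ≠ 0 := right_ne_zero_of_mul hn
  field_simp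

/-- if `e n • u n → p` and `u n → u ≠ 0` then `p` is a multiple of `u`. -/
lemma limit_parallel {e : ℕ → ℂ} {u : ℕ → V} {p u0 : V} (hu : u0 ≠ 0)
    (h1 : Tendsto (fun n => e n • u n) atTop (𝓝 p)) (h2 : Tendsto u atTop (𝓝 u0)) :
    ∃ l : ℂ, p = l • u0 := by
  obtain ⟨g, hg⟩ := SeparatingDual.exists_eq_one (R := ℂ) hu
  have h3 : Tendsto (fun n => g (e n • u n)) atTop (𝓝 (g p)) := (g.continuous.tendsto p).comp h1
  have h4 : Tendsto (fun n => g (u n)) atTop (𝓝 1) := by
    rw [← hg]; exact (g.continuous.tendsto u0).comp h2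
  have h5 : Tendsto (fun n => g (e n • u n) / g (u n)) atTop (𝓝 (g p / 1)) := h3.div h4 one_ne_zero
  rw [div_one] at h5
  have h6 : Tendsto e atTop (𝓝 (g p)) := by
    refine h5.congr' ?_
    filter_upwards [h4.eventually_ne one_ne_zero] with n hn
    rw [map_smul, smul_eq_mul, mul_div_assoc, div_self hn, mul_one]
  exact ⟨g p, tendsto_nhds_unique h1 (h6.smul h2)⟩

variable [FiniteDimensional ℂ V]

lemma exists_limit_of_norm_eq_one {W : Type*} [NormedAddCommGroup W] [NormedSpace ℂ W]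
    [FiniteDimensional ℂ W] (u : ℕ → W) (hu : ∀ᶠ n in atTop, ‖u n‖ = 1) :
    ∃ (φ : ℕ → ℕ) (w : W), StrictMono φ ∧ ‖w‖ = 1 ∧ Tendsto (fun n => u (φ n)) atTop (𝓝 w) := by
  have : ProperSpace W := FiniteDimensional.proper ℂ W
  have hc : IsCompact (Metric.sphere (0 : W) 1) := isCompact_sphere 0 1
  have hf : ∃ᶠ n in atTop, u n ∈ Metric.sphere (0 : W) 1 := by
    apply Eventually.frequently
    filter_upwards [hu] with n hn
    simpa using hn
  obtain ⟨w, hw, φ, hφ, hlim⟩ := hc.tendsto_subseq' hf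
  exact ⟨φ, w, hφ, by simpa using hw, hlim⟩

/-- closedness of the set of the points which lie on a line contained in `C` -/
lemma line_limit {C : Set V} (hC : IsClosed C) {p w : ℕ → V} {p0 : V} (hp0 : p0 ≠ 0)
    (hp : Tendsto p atTop (𝓝 p0))
    (hw : ∀ᶠ n in atTop, LinearIndependent ℂ ![p n, w n] ∧ ∀ a b : ℂ, a • p n + b • w n ∈ C) :
    ∃ w0, LinearIndependent ℂ ![p0, w0] ∧ (∀ a b : ℂ, a • p0 + b • w0 ∈ C) ∧
      ∃ (φ : ℕ → ℕ) (α β : ℕ → ℂ), StrictMono φ ∧
        Tendsto (fun n => α n • p (φ n) + β n • w (φ n)) atTop (𝓝 w0) := by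
  obtain ⟨g, hg⟩ := SeparatingDual.exists_eq_one (R := ℂ) hp0
  have hgp : Tendsto (fun n => g (p n)) atTop (𝓝 1) := by
    rw [← hg]; exact (g.continuous.tendsto p0).comp hp
  -- the normalised vectors
  set w1 : ℕ → V := fun n => w n - (g (w n) / g (p n)) • p n with hw1
  set w2 : ℕ → V := fun n => (((‖w1 n‖ : ℝ) : ℂ)⁻¹) • w1 n with hw2
  have h1 : ∀ᶠ n in atTop, ‖w2 n‖ = 1 := by
    filter_upwards [hw, hgp.eventually_ne one_ne_zero] with n hn hgn
    have hne : w1 n ≠ 0 := by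
      intro h0
      have := (LinearIndependent.pair_iff.1 hn.1) (-(g (w n) / g (p n))) 1 (by
        rw [neg_smul, one_smul, neg_add_eq_sub]; exact h0)
      exact one_ne_zero this.2
    simp only [hw2, norm_smul, norm_inv, Complex.norm_real, norm_norm]
    exact inv_mul_cancel₀ (norm_ne_zero_iff.2 hne)
  have h2 : ∀ᶠ n in atTop, g (w2 n) = 0 := by
    filter_upwards [hgp.eventually_ne one_ne_zero] with n hgn
    simp only [hw2, hw1, map_smul, map_sub, smul_eq_mul]
    rw [div_mul_cancel₀ _ hgn, sub_self, mul_zero]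
  obtain ⟨φ, w0, hφ, hw0n, hlim⟩ := exists_limit_of_norm_eq_one w2 h1
  have hgw0 : g w0 = 0 := by
    have h3 : Tendsto (fun n => g (w2 (φ n))) atTop (𝓝 (g w0)) := (g.continuous.tendsto w0).comp hlim
    have h4 : Tendsto (fun n => g (w2 (φ n))) atTop (𝓝 0) :=
      tendsto_const_nhds.congr' (by
        filter_upwards [hφ.tendsto_atTop.eventually h2] with n hn
        exact hn.symm)
    exact tendsto_nhds_unique h3 h4
  have hw0 : w0 ≠ 0 := by
    intro h; rw [h, norm_zero] at hw0n; exact zero_ne_one hw0n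
  refine ⟨w0, linInd_of_functional (g := g) (by rw [hg]; exact one_ne_zero) hgw0 hw0, ?_, ?_⟩
  · intro a b
    have h3 : Tendsto (fun n => a • p (φ n) + b • w2 (φ n)) atTop (𝓝 (a • p0 + b • w0)) :=
      ((hp.comp hφ.tendsto_atTop).const_smul a).add (hlim.const_smul b)
    refine hC.mem_of_tendsto h3 ?_
    filter_upwards [hφ.tendsto_atTop.eventually hw] with n hn
    have h4 := hn.2 (a - b * (((‖w1 (φ n)‖ : ℝ) : ℂ)⁻¹ * (g (w (φ n)) / g (p (φ n)))))
      (b * ((‖w1 (φ n)‖ : ℝ) : ℂ)⁻¹)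
    convert h4 using 1
    simp only [hw2, hw1]
    module
  · refine ⟨φ, fun n => -(((‖w1 (φ n)‖ : ℝ) : ℂ)⁻¹ * (g (w (φ n)) / g (p (φ n)))),
      fun n => ((‖w1 (φ n)‖ : ℝ) : ℂ)⁻¹, hφ, ?_⟩
    refine hlim.congr fun n => ?_
    simp only [hw2, hw1]
    module

/-- the main lemma on divergent sequences -/
lemma main_alternative {C : Set V} (hC : IsClosed C) (h0 : (0 : V) ∈ C)
    (hs : ∀ (c : ℂ), ∀ x ∈ C, c • x ∈ C) (hint : interior C = ∅)
    {B : ℕ → V →L[ℂ] V} (hinj : ∀ n, Function.Injective (B n)) (hdiv : Diverges C B)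
    {k : ℕ → V} {k0 : V} (hk : Tendsto k atTop (𝓝 k0)) (hk0 : k0 ∉ C) {c : ℕ → ℂ} {p : V}
    (hp : p ≠ 0) (hlim : Tendsto (fun n => c n • B n (k n)) atTop (𝓝 p)) :
    HasLine C p ∨ ∃ (φ : ℕ → ℕ) (d : ℕ → ℂ) (f : V →L[ℂ] ℂ), StrictMono φ ∧ f ≠ 0 ∧
      (∀ x, f x = 0 → x ∈ C) ∧
      Tendsto (fun n => d n • B (φ n)) atTop (𝓝 (f.smulRight p)) := by
  obtain ⟨g, hg⟩ := SeparatingDual.exists_eq_one (R := ℂ) hp
  have hBn : ∀ n, B n ≠ 0 := by
    intro n h
    have : p = 0 := hinj n (by rw [h]; rfl)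
    exact hp this
  set S : ℕ → V →L[ℂ] V := fun n => (((‖B n‖ : ℝ) : ℂ)⁻¹) • B n with hS
  have hSn : ∀ n, ‖S n‖ = 1 := by
    intro n
    simp only [hS, norm_smul, norm_inv, Complex.norm_real, norm_norm]
    exact inv_mul_cancel₀ (norm_ne_zero_iff.2 (hBn n))
  obtain ⟨φ, T, hφ, hTn, hT⟩ := exists_limit_of_norm_eq_one S (Eventually.of_forall hSn)
  have hSdiv : Diverges C S := hdiv.smul _
  have hTx : ∀ (x : ℕ → V) (a : V), Tendsto x atTop (𝓝 a) →
      Tendsto (fun n => S (φ n) (x n)) atTop (𝓝 (T a)) := by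
    intro x a hx
    have h1 : Tendsto (fun n => (S (φ n), x n)) atTop (𝓝 (T, a)) := hT.prodMk_nhds hx
    exact ((isBoundedBilinearMap_apply (𝕜 := ℂ) (E := V) (F := V)).continuous.tendsto
      (T, a)).comp h1
  -- the range of `T` is contained in `C`
  have hR : ∀ x, T x ∈ C := by
    intro x
    by_contra hx
    have ho : IsOpen {x | T x ∉ C} := (hC.isOpen_compl).preimage T.continuous
    have hne : ∃ x', T x' ∉ C ∧ x' ∉ C := by
      by_contra hcon
      push Not at hcon
      have : {x | T x ∉ C} ⊆ interior C := interior_maximal (fun x' hx' => hcon x' hx') ho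
      rw [hint] at this
      exact this hx
    obtain ⟨x', h1, h2⟩ := hne
    apply h1
    refine hSdiv φ hφ (fun _ => x') x' (T x') tendsto_const_nhds h2 (fun _ => 1) ?_
    simpa using hTx (fun _ => x') x' tendsto_const_nhds
  set e : ℕ → ℂ := fun n => c (φ n) * ((‖B (φ n)‖ : ℝ) : ℂ) with he
  have hk' : Tendsto (fun n => k (φ n)) atTop (𝓝 k0) := hk.comp hφ.tendsto_atTop
  have heu : Tendsto (fun n => e n • S (φ n) (k (φ n))) atTop (𝓝 p) := by
    refine (hlim.comp hφ.tendsto_atTop).congr fun n => ?_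
    have hb : ((‖B (φ n)‖ : ℝ) : ℂ) ≠ 0 := by
      exact_mod_cast norm_ne_zero_iff.2 (hBn (φ n))
    simp only [he, hS, ContinuousLinearMap.smul_apply, smul_smul, Function.comp_apply]
    rw [mul_assoc, mul_inv_cancel₀ hb, mul_one]
  have hcomb : ∀ (a : ℂ) (x : V), a • p + T x ∈ C := by
    by_cases hTk : T k0 = 0
    · have hu : Tendsto (fun n => S (φ n) (k (φ n))) atTop (𝓝 0) := by
        rw [← hTk]; exact hTx _ _ hk'
      have hinv := inv_tendsto_zero hp heu hu
      have key : ∀ x, p + T x ∈ C := by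
        intro x
        have hv : Tendsto (fun n => k (φ n) + (e n)⁻¹ • x) atTop (𝓝 k0) := by
          simpa using hk'.add (hinv.smul_const x)
        refine hSdiv φ hφ _ k0 _ hv hk0 e ?_
        have h1 : Tendsto (fun n => e n • S (φ n) (k (φ n)) + S (φ n) x) atTop (𝓝 (p + T x)) :=
          heu.add (hTx _ _ tendsto_const_nhds)
        refine h1.congr' ?_
        have h2 : ∀ᶠ n in atTop, e n • S (φ n) (k (φ n)) ≠ 0 := heu.eventually_ne hp
        filter_upwards [h2] with n hn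
        have hen : e n ≠ 0 := fun h => hn (by rw [h, zero_smul])
        rw [map_add, map_smul, smul_add, smul_smul, mul_inv_cancel₀ hen, one_smul]
      intro a x
      by_cases ha : a = 0
      · subst ha; simpa using hR x
      · have := hs a _ (key (a⁻¹ • x))
        rwa [smul_add, map_smul, smul_smul, mul_inv_cancel₀ ha, one_smul] at this
    · obtain ⟨l, hl⟩ := limit_parallel hTk heu (hTx _ _ hk')
      intro a x
      have : a • p + T x = T ((a * l) • k0 + x) := by
        rw [map_add, map_smul, mul_smul, ← hl]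
      rw [this]; exact hR _
  by_cases hli : ∃ x, LinearIndependent ℂ ![p, T x]
  · obtain ⟨x, hx⟩ := hli
    left
    refine ⟨T x, hx, fun a b => ?_⟩
    have := hcomb a (b • x)
    rwa [map_smul] at this
  -- `T` has rank one
  push Not at hli
  have hTf : ∀ x, T x = g (T x) • p := by
    intro x
    by_contra hx
    apply hli x
    rw [LinearIndependent.pair_iff]
    intro s t hst
    by_cases ht : t = 0
    · subst ht
      simp only [zero_smul, add_zero, smul_eq_zero, hp, or_false] at hst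
      exact ⟨hst, rfl⟩
    · exfalso
      have h1 : T x = (-(s / t)) • p := by
        have h2 : t⁻¹ • (s • p + t • T x) = 0 := by rw [hst, smul_zero]
        rw [smul_add, smul_smul, smul_smul, inv_mul_cancel₀ ht, one_smul] at h2
        rw [neg_smul, div_eq_inv_mul]
        exact eq_neg_of_add_eq_zero_right h2
      apply hx
      rw [h1, map_smul, hg, smul_eq_mul, mul_one]
  set f : V →L[ℂ] ℂ := g.comp T with hf
  have hTf' : T = f.smulRight p := by
    ext x
    rw [ContinuousLinearMap.smulRight_apply]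
    exact hTf x
  have hf0 : f ≠ 0 := by
    intro h
    rw [h] at hTf'
    have : T = 0 := by rw [hTf']; ext; simp
    rw [this, norm_zero] at hTn
    exact zero_ne_one hTn
  by_cases hker : ∀ x, f x = 0 → x ∈ C
  · right
    refine ⟨φ, fun n => (((‖B (φ n)‖ : ℝ) : ℂ)⁻¹), f, hφ, hf0, hker, ?_⟩
    rw [← hTf']; exact hT
  -- the second order argument
  left
  push Not at hker
  obtain ⟨k', hk'0, hk'C⟩ := hker
  have hk'ne : k' ≠ 0 := fun h => hk'C (h ▸ h0)
  obtain ⟨x1, hx1⟩ : ∃ x, f x ≠ 0 := by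
    by_contra h
    push Not at h
    exact hf0 (ContinuousLinearMap.ext h)
  set x0 : V := (f x1)⁻¹ • x1 with hx0
  have hfx0 : f x0 = 1 := by rw [hx0, map_smul, smul_eq_mul, inv_mul_cancel₀ hx1]
  have hTx0 : T x0 = p := by rw [hTf', ContinuousLinearMap.smulRight_apply, hfx0, one_smul]
  have hTk' : T k' = 0 := by rw [hTf', ContinuousLinearMap.smulRight_apply, hk'0, zero_smul]
  have hu : Tendsto (fun n => S (φ n) k') atTop (𝓝 0) := by
    rw [← hTk']; exact hTx _ _ tendsto_const_nhds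
  have hr : Tendsto (fun n => S (φ n) x0) atTop (𝓝 p) := by
    rw [← hTx0]; exact hTx _ _ tendsto_const_nhds
  have hgu : Tendsto (fun n => g (S (φ n) k')) atTop (𝓝 0) := by
    have := (g.continuous.tendsto 0).comp hu
    simpa [Function.comp_def] using this
  have hgr : Tendsto (fun n => g (S (φ n) x0)) atTop (𝓝 1) := by
    rw [← hg]; exact (g.continuous.tendsto p).comp hr
  set ε : ℕ → ℂ := fun n => g (S (φ n) k') / g (S (φ n) x0) with hε
  have hε0 : Tendsto ε atTop (𝓝 0) := by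
    have := hgu.div hgr one_ne_zero
    rwa [zero_div] at this
  set kk : ℕ → V := fun n => k' - ε n • x0 with hkk
  have hkk0 : Tendsto kk atTop (𝓝 k') := by
    simpa using (tendsto_const_nhds (x := k')).sub (hε0.smul_const x0)
  set y : ℕ → V := fun n => S (φ n) (kk n) with hy
  have hy0 : Tendsto y atTop (𝓝 0) := by
    rw [← hTk']; exact hTx _ _ hkk0
  have hSinj : ∀ n, Function.Injective (S n) := by
    intro n a b hab
    apply hinj n
    have hb : (((‖B n‖ : ℝ) : ℂ)⁻¹) ≠ 0 := inv_ne_zero (by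
      exact_mod_cast norm_ne_zero_iff.2 (hBn n))
    exact smul_right_injective V hb hab
  have hyne : ∀ᶠ n in atTop, y n ≠ 0 := by
    filter_upwards [hkk0.eventually_ne hk'ne] with n hn h
    apply hn
    apply hSinj (φ n)
    rw [map_zero]; exact h
  have hgy : ∀ᶠ n in atTop, g (y n) = 0 := by
    filter_upwards [hgr.eventually_ne one_ne_zero] with n hn
    simp only [hy, hkk, map_sub, map_smul, smul_eq_mul, hε]
    rw [div_mul_cancel₀ _ hn, sub_self]
  set z : ℕ → V := fun n => (((‖y n‖ : ℝ) : ℂ)⁻¹) • y n with hz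
  have hzn : ∀ᶠ n in atTop, ‖z n‖ = 1 := by
    filter_upwards [hyne] with n hn
    simp only [hz, norm_smul, norm_inv, Complex.norm_real, norm_norm]
    exact inv_mul_cancel₀ (norm_ne_zero_iff.2 hn)
  obtain ⟨ψ, z0, hψ, hz0n, hz0⟩ := exists_limit_of_norm_eq_one z hzn
  have hgz0 : g z0 = 0 := by
    have h3 : Tendsto (fun n => g (z (ψ n))) atTop (𝓝 (g z0)) := (g.continuous.tendsto z0).comp hz0
    have h4 : Tendsto (fun n => g (z (ψ n))) atTop (𝓝 0) :=
      tendsto_const_nhds.congr' (by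
        filter_upwards [hψ.tendsto_atTop.eventually hgy] with n hn
        simp only [hz, map_smul, hn, smul_zero])
    exact tendsto_nhds_unique h3 h4
  have hz0ne : z0 ≠ 0 := by
    intro h; rw [h, norm_zero] at hz0n; exact zero_ne_one hz0n
  have hline : ∀ a : ℂ, z0 + a • p ∈ C := by
    intro a
    have hny : Tendsto (fun n => ((‖y (ψ n)‖ : ℝ) : ℂ)) atTop (𝓝 0) := by
      have h1 : Tendsto (fun n => ‖y (ψ n)‖) atTop (𝓝 0) := by
        have := (hy0.comp hψ.tendsto_atTop).norm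
        simpa [Function.comp_def] using this
      have := (Complex.continuous_ofReal.tendsto 0).comp h1
      simpa [Function.comp_def] using this
    have hv : Tendsto (fun n => kk (ψ n) + (a * ((‖y (ψ n)‖ : ℝ) : ℂ)) • x0) atTop (𝓝 k') := by
      have h1 : Tendsto (fun n => a * ((‖y (ψ n)‖ : ℝ) : ℂ)) atTop (𝓝 0) := by
        simpa using hny.const_mul a
      simpa using (hkk0.comp hψ.tendsto_atTop).add (h1.smul_const x0)
    refine hSdiv (φ ∘ ψ) (hφ.comp hψ) _ k' _ hv hk'C (fun n => (((‖y (ψ n)‖ : ℝ) : ℂ)⁻¹)) ?_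
    have h1 : Tendsto (fun n => z (ψ n) + a • S (φ (ψ n)) x0) atTop (𝓝 (z0 + a • p)) :=
      hz0.add ((hr.comp hψ.tendsto_atTop).const_smul a)
    refine h1.congr' ?_
    filter_upwards [hψ.tendsto_atTop.eventually hyne] with n hn
    have hyn : ((‖y (ψ n)‖ : ℝ) : ℂ) ≠ 0 := by exact_mod_cast norm_ne_zero_iff.2 hn
    have hya : (((‖y (ψ n)‖ : ℝ) : ℂ)⁻¹) * (a * ((‖y (ψ n)‖ : ℝ) : ℂ)) = a := by field_simp
    simp only [Function.comp_apply, map_add, map_smul, smul_add, hz]
    rw [smul_smul _ _ (S (φ (ψ n)) x0), hya]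
  refine ⟨z0, linInd_of_functional (g := g) (by rw [hg]; exact one_ne_zero) hgz0 hz0ne, ?_⟩
  intro a b
  by_cases hb : b = 0
  · subst hb
    simpa using hcomb a 0
  · have := hs b _ (hline (a / b))
    rwa [smul_add, smul_smul, mul_div_cancel₀ _ hb, add_comm] at this

end Pool.Agent.Helper30.ProjDyn
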