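import Pool.Agent.Helper30.ProjDyn

open Filter Topology Set

namespace Pool.Agent.Helper30.ProjDyn

variable {V : Type*} [NormedAddCommGroup V] [NormedSpace ℂ V]

/-- the linear picture of a cocompact properly discontinuous action on the complement of `C` -/
structure Cocompact (C : Set V) (G : Subgroup (V ≃L[ℂ] V)) : Prop where
  closed : IsClosed C
  zero_mem : (0 : V) ∈ C
  smul_mem : ∀ (c : ℂ), ∀ x ∈ C, c • x ∈ C
  int : interior C = ∅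
  inv : ∀ A ∈ G, ∀ x ∈ C, A x ∈ C
  scale : ∀ A ∈ G, ∀ c : ℂ, c ≠ 0 → ∃ A' ∈ G, ∀ x, A' x = c • A x
  pd : ∀ A : ℕ → V ≃L[ℂ] V, (∀ n, A n ∈ G) →
    (∀ m n, m < n → ¬ ∃ c : ℂ, ∀ x, A n x = c • A m x) → Diverges C (fun n => (A n : V →L[ℂ] V))
  cc : ∀ p ∈ C, p ≠ 0 → ∃ (A : ℕ → V ≃L[ℂ] V) (k : ℕ → V) (k0 : V) (c : ℕ → ℂ), (∀ n, A n ∈ G) ∧
    (∀ m n, m < n → ¬ ∃ c : ℂ, ∀ x, A n x = c • A m x) ∧ Tendsto k atTop (𝓝 k0) ∧ k0 ∉ C ∧
    Tendsto (fun n => c n • A n (k n)) atTop (𝓝 p)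

variable {C : Set V} {G : Subgroup (V ≃L[ℂ] V)}

lemma mulA (A B : V ≃L[ℂ] V) (x : V) : (A * B) x = A (B x) := rfl

lemma oneA (x : V) : (1 : V ≃L[ℂ] V) x = x := rfl

lemma pow_apply_f {f : V →L[ℂ] ℂ} {g : V ≃L[ℂ] V} (hg : ∀ x, f (g x) = f x) (n : ℕ) (x : V) :
    f ((g ^ n) x) = f x := by
  induction n with
  | zero => rw [pow_zero, oneA]
  | succ n ih =>
    rw [pow_succ', mulA, hg, ih]

lemma pow_apply_norm {f : V →L[ℂ] ℂ} {g : V ≃L[ℂ] V} (hg : ∀ x, f (g x) = f x)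
    (hgn : ∀ x, f x = 0 → ‖g x‖ ≤ (1 / 2) * ‖x‖) (n : ℕ) (x : V) (hx : f x = 0) :
    ‖(g ^ n) x‖ ≤ (1 / 2) ^ n * ‖x‖ := by
  induction n with
  | zero => rw [pow_zero, pow_zero, oneA, one_mul]
  | succ n ih =>
    rw [pow_succ', mulA]
    calc ‖g ((g ^ n) x)‖ ≤ (1 / 2) * ‖(g ^ n) x‖ := hgn _ (by rw [pow_apply_f hg, hx])
      _ ≤ (1 / 2) * ((1 / 2) ^ n * ‖x‖) := by gcongr
      _ = (1 / 2) ^ (n + 1) * ‖x‖ := by ring

lemma pow_fix {g : V ≃L[ℂ] V} {e : V} (hg : g e = e) (n : ℕ) : (g ^ n) e = e := by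
  induction n with
  | zero => rw [pow_zero, oneA]
  | succ n ih => rw [pow_succ', mulA, ih, hg]

lemma inv_fix {g : V ≃L[ℂ] V} {e : V} (hg : g e = e) : g⁻¹ e = e := by
  have h : g⁻¹ (g e) = e := by
    rw [← mulA, inv_mul_cancel]; rfl
  rwa [hg] at h

lemma inv_f {f : V →L[ℂ] ℂ} {g : V ≃L[ℂ] V} (hg : ∀ x, f (g x) = f x) (x : V) :
    f (g⁻¹ x) = f x := by
  rw [← hg (g⁻¹ x), ← mulA, mul_inv_cancel, oneA]

/-- the conjugates of `h` by the powers of `g` -/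
def cj (g h : V ≃L[ℂ] V) (m : ℕ) : V ≃L[ℂ] V := g ^ m * h * (g ^ m)⁻¹

lemma cj_mem {g h : V ≃L[ℂ] V} (hg : g ∈ G) (hh : h ∈ G) (m : ℕ) : cj g h m ∈ G :=
  G.mul_mem (G.mul_mem (G.pow_mem hg m) hh) (G.inv_mem (G.pow_mem hg m))

lemma cj_e {g h : V ≃L[ℂ] V} {e : V} (hge : g e = e) (m : ℕ) :
    cj g h m e = e + (g ^ m) (h e - e) := by
  rw [cj, mulA, mulA,
    inv_fix (pow_fix hge m), map_sub, pow_fix hge m]
  abel

lemma cj_f {f : V →L[ℂ] ℂ} {g h : V ≃L[ℂ] V} (hg : ∀ x, f (g x) = f x)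
    (hh : ∀ x, f (h x) = f x) (m : ℕ) (x : V) : f (cj g h m x) = f x := by
  rw [cj, mulA, mulA, pow_apply_f hg, hh,
    inv_f (pow_apply_f hg m)]

lemma cj_inv (g h : V ≃L[ℂ] V) (m : ℕ) : (cj g h m)⁻¹ = cj g h⁻¹ m := by
  simp only [cj, mul_inv_rev, inv_inv, mul_assoc]

lemma cj_nonprop {f : V →L[ℂ] ℂ} {g h : V ≃L[ℂ] V} {e : V} (hg : ∀ x, f (g x) = f x)
    (hh : ∀ x, f (h x) = f x) (hgn : ∀ x, f x = 0 → ‖g x‖ ≤ (1 / 2) * ‖x‖) (hge : g e = e)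
    (hfe : f e ≠ 0) (hhe : h e ≠ e) (m n : ℕ) (hmn : m < n) :
    ¬ ∃ c : ℂ, ∀ x, cj g h n x = c • cj g h m x := by
  rintro ⟨c, hc⟩
  have h1 := congrArg f (hc e)
  rw [map_smul, cj_f hg hh, cj_f hg hh, smul_eq_mul] at h1
  have hc1 : c = 1 := by
    have : (c - 1) * f e = 0 := by linear_combination -h1
    exact sub_eq_zero.1 ((mul_eq_zero.1 this).resolve_right hfe)
  have h2 := hc e
  rw [hc1, one_smul, cj_e hge, cj_e hge] at h2
  have h3 : (g ^ n) (h e - e) = (g ^ m) (h e - e) := add_left_cancel h2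
  set b := (g ^ m) (h e - e) with hb
  have hfb : f b = 0 := by rw [hb, pow_apply_f hg, map_sub, hh, sub_self]
  have hbne : b ≠ 0 := by
    intro h0
    have : h e - e = 0 := by
      apply (g ^ m).injective
      rw [map_zero]; exact h0
    exact hhe (sub_eq_zero.1 this)
  have h4 : (g ^ (n - m)) b = b := by
    have h8 : (g ^ (n - m)) b = (g ^ n) (h e - e) := by
      rw [hb, ← mulA, ← pow_add, Nat.sub_add_cancel hmn.le]
    rw [h8]; exact h3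
  have h5 := pow_apply_norm hg hgn (n - m) b hfb
  rw [h4] at h5
  have h6 : (1 / 2 : ℝ) ^ (n - m) ≤ 1 / 2 := by
    calc (1 / 2 : ℝ) ^ (n - m) ≤ (1 / 2) ^ 1 :=
          pow_le_pow_of_le_one (by norm_num) (by norm_num) (by omega)
      _ = 1 / 2 := pow_one _
  have h7 : 0 < ‖b‖ := norm_pos_iff.2 hbne
  nlinarith

lemma cj_e_tendsto {f : V →L[ℂ] ℂ} {g h : V ≃L[ℂ] V} {e : V} (hg : ∀ x, f (g x) = f x)
    (hh : ∀ x, f (h x) = f x) (hgn : ∀ x, f x = 0 → ‖g x‖ ≤ (1 / 2) * ‖x‖) (hge : g e = e) :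
    Tendsto (fun m => cj g h m e) atTop (𝓝 e) := by
  have h1 : Tendsto (fun m => (g ^ m) (h e - e)) atTop (𝓝 0) := by
    apply squeeze_zero_norm (a := fun m => (1 / 2 : ℝ) ^ m * ‖h e - e‖)
    · intro m
      exact pow_apply_norm hg hgn m _ (by rw [map_sub, hh, sub_self])
    · have := (tendsto_pow_atTop_nhds_zero_of_lt_one (r := (1 / 2 : ℝ)) (by norm_num)
        (by norm_num)).mul_const ‖h e - e‖
      rwa [zero_mul] at this
  have h2 : Tendsto (fun m => e + (g ^ m) (h e - e)) atTop (𝓝 (e + 0)) :=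
    tendsto_const_nhds.add h1
  rw [add_zero] at h2
  exact h2.congr fun m => (cj_e hge m).symm

variable [FiniteDimensional ℂ V]

lemma det_cj (g h : V ≃L[ℂ] V) (m : ℕ) :
    ((cj g h m : V ≃L[ℂ] V) : V →L[ℂ] V).det = (h : V →L[ℂ] V).det := by
  have h1 : ((cj g h m : V ≃L[ℂ] V) : V →L[ℂ] V) =
      ((g ^ m : V ≃L[ℂ] V) : V →L[ℂ] V) * (h : V →L[ℂ] V) *
        (((g ^ m)⁻¹ : V ≃L[ℂ] V) : V →L[ℂ] V) := by
    ext x; rfl
  have h2 : ((g ^ m : V ≃L[ℂ] V) : V →L[ℂ] V) * (((g ^ m)⁻¹ : V ≃L[ℂ] V) : V →L[ℂ] V) = 1 := by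
    ext x
    change (g ^ m) ((g ^ m)⁻¹ x) = x
    rw [← mulA, mul_inv_cancel]; rfl
  have h3 : ∀ a b : V →L[ℂ] V, (a * b).det = a.det * b.det := by
    intro a b
    exact LinearMap.det_comp (a : V →ₗ[ℂ] V) (b : V →ₗ[ℂ] V)
  have h4 : (1 : V →L[ℂ] V).det = 1 := LinearMap.det_id
  rw [h1, h3, h3]
  have h5 := congrArg ContinuousLinearMap.det h2
  rw [h3, h4] at h5
  linear_combination (h : V →L[ℂ] V).det * h5

lemma norm_cj_tendsto (H : Cocompact C G) {f : V →L[ℂ] ℂ} {g h : V ≃L[ℂ] V} {e : V}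
    (hgG : g ∈ G) (hhG : h ∈ G) (hg : ∀ x, f (g x) = f x)
    (hh : ∀ x, f (h x) = f x) (hgn : ∀ x, f x = 0 → ‖g x‖ ≤ (1 / 2) * ‖x‖) (hge : g e = e)
    (hfe : f e ≠ 0) (hhe : h e ≠ e) :
    Tendsto (fun m => ‖((cj g h m : V ≃L[ℂ] V) : V →L[ℂ] V)‖) atTop atTop := by
  have hdiv := H.pd (fun m => cj g h m) (fun m => cj_mem hgG hhG m)
    (fun m n hmn => cj_nonprop hg hh hgn hge hfe hhe m n hmn)
  by_contra hcon
  rw [tendsto_atTop] at hcon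
  push Not at hcon
  obtain ⟨M, hM⟩ := hcon
  have hps : ProperSpace (V →L[ℂ] V) := FiniteDimensional.proper ℂ (V →L[ℂ] V)
  have hc : IsCompact (Metric.closedBall (0 : V →L[ℂ] V) M) := isCompact_closedBall 0 M
  have hf : ∃ᶠ n in atTop, ((cj g h n : V ≃L[ℂ] V) : V →L[ℂ] V) ∈
      Metric.closedBall (0 : V →L[ℂ] V) M := by
    refine Frequently.mono hM ?_
    intro n hn
    simpa using le_of_lt (not_le.1 (by simpa using hn))
  obtain ⟨T, -, φ, hφ, hlim⟩ := hc.tendsto_subseq' hf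
  have hdet : T.det = (h : V →L[ℂ] V).det := by
    have h1 := (ContinuousLinearMap.continuous_det.tendsto T).comp hlim
    have h2 : Tendsto (fun n : ℕ => (h : V →L[ℂ] V).det) atTop (𝓝 T.det) :=
      h1.congr fun n => det_cj g h (φ n)
    exact tendsto_nhds_unique h2 tendsto_const_nhds
  have hdet0 : (h : V →L[ℂ] V).det ≠ 0 := by
    have : IsUnit (LinearMap.det ((h : V →L[ℂ] V) : V →ₗ[ℂ] V)) :=
      LinearEquiv.isUnit_det' h.toLinearEquiv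
    exact this.ne_zero
  rw [← hdet] at hdet0
  have hsurj : Function.Surjective T := by
    have h1 : IsUnit ((T : V →ₗ[ℂ] V)) := by
      rw [LinearMap.isUnit_iff_isUnit_det]
      exact isUnit_iff_ne_zero.2 hdet0
    exact ((Module.End.isUnit_iff _).1 h1).surjective
  have hopen : IsOpenMap T := T.isOpenMap_of_finiteDimensional hsurj
  have himg : T '' Cᶜ ⊆ C := by
    rintro y ⟨x, hx, rfl⟩
    refine hdiv φ hφ (fun _ => x) x (T x) tendsto_const_nhds hx (fun _ => 1) ?_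
    have h1 : Tendsto (fun n => (((fun n => ((cj g h n : V ≃L[ℂ] V) : V →L[ℂ] V)) ∘ φ) n) x)
        atTop (𝓝 (T x)) :=
      ((ContinuousLinearMap.apply ℂ V x).continuous.tendsto T).comp hlim
    simpa using h1
  have h2 : T '' Cᶜ ⊆ interior C := interior_maximal himg (hopen _ H.closed.isOpen_compl)
  rw [H.int, subset_empty_iff, image_eq_empty, compl_empty_iff] at h2
  have h3 := H.int
  rw [h2, interior_univ] at h3
  exact (Set.univ_nonempty (α := V)).ne_empty h3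

end Pool.Agent.Helper30.ProjDyn
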