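import Pool.Agent.Helper30.ProjDyn2

open Filter Topology Set

namespace Pool.Agent.Helper30.ProjDyn

variable {V : Type*} [NormedAddCommGroup V] [NormedSpace ℂ V] [FiniteDimensional ℂ V]
variable {C : Set V} {G : Subgroup (V ≃L[ℂ] V)}

lemma fixes_all (H : Cocompact C G) {f : V →L[ℂ] ℂ} (hker : ∀ x, f x = 0 → x ∈ C)
    (hline : ∀ x w, LinearIndependent ℂ ![x, w] → (∀ a b : ℂ, a • x + b • w ∈ C) → f x = 0)
    {g h : V ≃L[ℂ] V} {e : V}
    (hgG : g ∈ G) (hhG : h ∈ G) (hg : ∀ x, f (g x) = f x)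
    (hh : ∀ x, f (h x) = f x) (hgn : ∀ x, f x = 0 → ‖g x‖ ≤ (1 / 2) * ‖x‖) (hge : g e = e)
    (hfe : f e ≠ 0) : h e = e := by
  by_contra hhe
  have hhe' : h⁻¹ e ≠ e := by
    intro h1
    apply hhe
    conv_lhs => rw [← h1]
    rw [← mulA, mul_inv_cancel, oneA]
  have hN := norm_cj_tendsto H hgG hhG hg hh hgn hge hfe hhe
  have hN' := norm_cj_tendsto H hgG (G.inv_mem hhG) hg (inv_f hh) hgn hge hfe hhe'
  have hdiv := H.pd (fun m => cj g h m) (fun m => cj_mem hgG hhG m)
    (fun m n hmn => cj_nonprop hg hh hgn hge hfe hhe m n hmn)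
  have hce := cj_e_tendsto hg hh hgn hge
  set N : ℕ → ℝ := fun m => ‖((cj g h m : V ≃L[ℂ] V) : V →L[ℂ] V)‖ with hNdef
  set N' : ℕ → ℝ := fun m => ‖((cj g h⁻¹ m : V ≃L[ℂ] V) : V →L[ℂ] V)‖ with hN'def
  have hNinv : Tendsto (fun m => (((N m : ℝ) : ℂ))⁻¹) atTop (𝓝 0) := by
    have h1 : Tendsto (fun m => (N m)⁻¹) atTop (𝓝 0) := hN.inv_tendsto_atTop
    have h2 := (Complex.continuous_ofReal.tendsto 0).comp h1
    simpa [Function.comp_def] using h2
  -- the limit of the normalised maps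
  have hu1 : ∀ᶠ m in atTop, ‖(((N m : ℝ) : ℂ)⁻¹) • ((cj g h m : V ≃L[ℂ] V) : V →L[ℂ] V)‖ = 1 := by
    filter_upwards [hN.eventually_gt_atTop 0] with m hm
    rw [norm_smul, norm_inv, Complex.norm_real, Real.norm_of_nonneg hm.le]
    exact inv_mul_cancel₀ hm.ne'
  obtain ⟨φ, T, hφ, hTn, hT⟩ := exists_limit_of_norm_eq_one _ hu1
  obtain ⟨x0, hx0⟩ : ∃ x0, T x0 ≠ 0 := by
    by_contra hcon
    push Not at hcon
    have : T = 0 := ContinuousLinearMap.ext hcon
    rw [this, norm_zero] at hTn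
    exact zero_ne_one hTn
  have hTx0 : Tendsto (fun n => (((N (φ n) : ℝ) : ℂ)⁻¹) • cj g h (φ n) x0) atTop (𝓝 (T x0)) := by
    have h1 := ((ContinuousLinearMap.apply ℂ V x0).continuous.tendsto T).comp hT
    simpa [Function.comp_def] using h1
  have hfT : f (T x0) = 0 := by
    have h1 := (f.continuous.tendsto _).comp hTx0
    have h2 : Tendsto (fun n => (((N (φ n) : ℝ) : ℂ)⁻¹) * f x0) atTop (𝓝 (0 * f x0)) :=
      (hNinv.comp hφ.tendsto_atTop).mul_const _
    rw [zero_mul] at h2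
    refine tendsto_nhds_unique h1 (h2.congr fun n => ?_)
    simp only [Function.comp_apply, map_smul, smul_eq_mul, cj_f hg hh]
  -- the almost collapsed vectors
  have hu2 : ∀ n, ∃ u : V, 1 ≤ N' (φ n) → ‖u‖ < 1 ∧ N' (φ n) / 2 < ‖cj g h⁻¹ (φ n) u‖ := by
    intro n
    by_cases h1 : 1 ≤ N' (φ n)
    · obtain ⟨u, hu, hu'⟩ := ContinuousLinearMap.exists_lt_apply_of_lt_opNorm
        ((cj g h⁻¹ (φ n) : V ≃L[ℂ] V) : V →L[ℂ] V) (r := N' (φ n) / 2) (by
          change N' (φ n) / 2 < N' (φ n); linarith)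
      exact ⟨u, fun _ => ⟨hu, hu'⟩⟩
    · exact ⟨0, fun h => absurd h h1⟩
  choose u hu using hu2
  have hN'1 : ∀ᶠ n in atTop, 1 ≤ N' (φ n) :=
    (hN'.comp hφ.tendsto_atTop).eventually_ge_atTop 1
  set w : ℕ → V := fun n => cj g h⁻¹ (φ n) (u n) with hw
  have hwpos : ∀ᶠ n in atTop, 0 < ‖w n‖ := by
    filter_upwards [hN'1] with n hn
    have := (hu n hn).2
    have h2 : 0 < N' (φ n) / 2 := by linarith
    exact h2.trans this
  set v : ℕ → V := fun n => (((‖w n‖ : ℝ) : ℂ)⁻¹) • w n with hv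
  have hvn : ∀ᶠ n in atTop, ‖v n‖ = 1 := by
    filter_upwards [hwpos] with n hn
    simp only [hv, norm_smul, norm_inv, Complex.norm_real, norm_norm]
    exact inv_mul_cancel₀ hn.ne'
  have hwinf : Tendsto (fun n => ‖w n‖⁻¹) atTop (𝓝 0) := by
    apply Tendsto.inv_tendsto_atTop
    have h1 : Tendsto (fun n => N' (φ n) / 2) atTop atTop :=
      (hN'.comp hφ.tendsto_atTop).atTop_div_const (by norm_num)
    refine tendsto_atTop_mono' _ ?_ h1
    filter_upwards [hN'1] with n hn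
    exact (hu n hn).2.le
  have hwinf' : Tendsto (fun n => (((‖w n‖ : ℝ) : ℂ)⁻¹)) atTop (𝓝 0) := by
    have h2 := (Complex.continuous_ofReal.tendsto 0).comp hwinf
    simpa [Function.comp_def] using h2
  have hcw : ∀ n, cj g h (φ n) (w n) = u n := by
    intro n
    rw [hw, ← mulA, ← cj_inv, mul_inv_cancel, oneA]
  have hucoll : Tendsto (fun n => (((‖w n‖ : ℝ) : ℂ)⁻¹) • u n) atTop (𝓝 0) := by
    apply squeeze_zero_norm' (a := fun n => ‖w n‖⁻¹)
    · filter_upwards [hN'1] with n hn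
      rw [norm_smul, norm_inv, Complex.norm_real, norm_norm]
      have h1 := (hu n hn).1
      calc ‖w n‖⁻¹ * ‖u n‖ ≤ ‖w n‖⁻¹ * 1 := by
            apply mul_le_mul_of_nonneg_left h1.le (inv_nonneg.2 (norm_nonneg _))
        _ = ‖w n‖⁻¹ := mul_one _
    · exact hwinf
  have hcv : Tendsto (fun n => cj g h (φ n) (v n)) atTop (𝓝 0) := by
    refine hucoll.congr fun n => ?_
    rw [hv, map_smul, hcw]
  obtain ⟨ψ, v0, hψ, hv0n, hv0⟩ := exists_limit_of_norm_eq_one v hvn
  have hv0ne : v0 ≠ 0 := by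
    intro h0; rw [h0, norm_zero] at hv0n; exact zero_ne_one hv0n
  have hfv0 : f v0 = 0 := by
    have h1 := (f.continuous.tendsto _).comp hv0
    have h2 : Tendsto (fun n => f ((((‖w n‖ : ℝ) : ℂ)⁻¹) • u n)) atTop (𝓝 0) := by
      have := (f.continuous.tendsto 0).comp hucoll
      simpa [Function.comp_def] using this
    refine tendsto_nhds_unique h1 ((h2.comp hψ.tendsto_atTop).congr fun n => ?_)
    simp only [Function.comp_apply]
    rw [← hcw (ψ n), ← map_smul, cj_f hg hh]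
  by_cases hall : ∀ t : ℂ, e + t • v0 ∈ C
  · -- the line spanned by `e` and `v0`
    apply hfe
    apply hline e v0 (linInd_of_functional (g := f) hfe hfv0 hv0ne)
    intro a b
    by_cases ha : a = 0
    · subst ha
      rw [zero_smul, zero_add]
      apply hker
      rw [map_smul, hfv0, smul_zero]
    · have := H.smul_mem a _ (hall (b / a))
      rwa [smul_add, smul_smul, mul_div_cancel₀ _ ha] at this
  · push Not at hall
    obtain ⟨t, ht⟩ := hall
    have key : ∀ l : ℂ, e + l • T x0 ∈ C := by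
      intro l
      have h1 : Tendsto (fun n => e + t • v (ψ n) +
          (l * (((N (φ (ψ n)) : ℝ) : ℂ))⁻¹) • x0) atTop (𝓝 (e + t • v0 + (l * 0) • x0)) :=
        ((tendsto_const_nhds).add (hv0.const_smul t)).add
          ((((hNinv.comp hφ.tendsto_atTop).comp hψ.tendsto_atTop).const_mul l).smul_const x0)
      rw [mul_zero, zero_smul, add_zero] at h1
      refine hdiv (φ ∘ ψ) (hφ.comp hψ) _ (e + t • v0) _ h1 ht (fun _ => 1) ?_
      have h2 : Tendsto (fun n => cj g h (φ (ψ n)) e + t • cj g h (φ (ψ n)) (v (ψ n)) +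
          l • ((((N (φ (ψ n)) : ℝ) : ℂ)⁻¹) • cj g h (φ (ψ n)) x0)) atTop
          (𝓝 (e + t • 0 + l • T x0)) :=
        (((hce.comp hφ.tendsto_atTop).comp hψ.tendsto_atTop).add
          ((hcv.comp hψ.tendsto_atTop).const_smul t)).add
          ((hTx0.comp hψ.tendsto_atTop).const_smul l)
      rw [smul_zero, add_zero] at h2
      refine h2.congr fun n => ?_
      simp only [Function.comp_apply, one_smul, ContinuousLinearEquiv.coe_coe, map_add, map_smul,
        smul_smul]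
    apply hfe
    apply hline e (T x0) (linInd_of_functional (g := f) hfe hfT hx0)
    intro a b
    by_cases ha : a = 0
    · subst ha
      rw [zero_smul, zero_add]
      apply hker
      rw [map_smul, hfT, smul_zero]
    · have := H.smul_mem a _ (key (b / a))
      rwa [smul_add, smul_smul, mul_div_cancel₀ _ ha] at this

end Pool.Agent.Helper30.ProjDyn
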